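import Mathlib
import Pool.Agent.Lib.MP_4e0942_nt.Defs
import Pool.Agent.Lib.MP_4e0942_nt.Final

/-!
# When does condition (Im) hold?

`ρ` is a continuous two-dimensional `p`-adic representation of `G_ℚ` with cyclotomic determinant,
irreducible modulo `p`, such as the Tate module `T_p E` of the problem.
-/

set_option autoImplicit false

namespace Pool.Agent.Results.MP_4e0942_nt.ImCriterion

open Pool.Agent.Lib.MP_4e0942_nt Matrix

/-- Exact criteria for condition (Im). -/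
theorem result (p : ℕ) [Fact p.Prime] (ρ : GQ → M2 ℤ_[p]) (hone : ρ 1 = 1)
    (hmul : ∀ σ τ : GQ, ρ (σ * τ) = ρ σ * ρ τ) (hρ : Continuous ρ)
    (hdet : CyclotomicDet ρ) (hirr : ResIrreducible ρ) :
    -- (Im) holds iff `ρ` maps `Gal(ℚ̄/ℚ(μ_{p^∞}))` onto `SL₂(ℤ_p)`
    (Im ρ ↔ ∀ s : M2 ℤ_[p], s.det = 1 → ∃ τ : GQ, FixesMu p τ ∧ ρ τ = s) ∧
    -- for odd `p` it is enough to look modulo `p²`
    (p ≠ 2 → (Im ρ ↔ ∀ s : M2 ℤ_[p], s.det = 1 → ∃ τ : GQ, FixesMu p τ ∧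
      ∃ Y : M2 ℤ_[p], ρ τ = s + (p : ℤ_[p]) ^ 2 • Y)) ∧
    -- for `p ≥ 5` it is enough to look at the order of the image modulo `p`
    (5 ≤ p → (Im ρ ↔ p ∣ Nat.card (Set.range fun σ : GQ => red (ρ σ)))) ∧
    -- for `p ≥ 7`, if some element has eigenvalues `1` and a generator of `𝔽_p^×` modulo `p`,
    -- (Im) fails iff the image modulo `p` permutes two lines
    (7 ≤ p → HasTorusElement ρ → (¬ Im ρ ↔ PermutesTwoLines ρ)) :=
  main p ρ hone hmul hρ hdet hirr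

end Pool.Agent.Results.MP_4e0942_nt.ImCriterion
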